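import Mathlib
import Pool.Agent.W366.PL.UBS
import Pool.Agent.W23.KS.Defs

/-! KS-UBSK: an upper bound sieve of dimension `k + 1`. -/

set_option autoImplicit false

namespace Pool.Agent.W946.KS

open Finset
open Pool.Agent.H373R2.T7
open Pool.Agent.W366.PL
open Pool.Agent.W23.PL Pool.Agent.W23.DC
open Pool.Agent.W23.KT Pool.Agent.W23.KS
open Pool.Agent.W23.SG (lf)

theorem alg1 {x y : ℝ} (hx : x ≠ 0) (hy : y ≠ 0) : x * (x⁻¹ * (y * (y * x)⁻¹)) = x⁻¹ := by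
  field_simp

theorem alg2 {x y : ℝ} (hx : x ≠ 0) (hy : y ≠ 0) : x * (y * (y * x)⁻¹) = 1 := by
  field_simp

theorem a1 {t Y : ℝ} (h : t ^ 2 < Y + 1) (ht : 3 ≤ t) : t ≤ Y := by nlinarith

theorem a2 {x : ℝ} (h : 1 ≤ x) : x ≤ x ^ 2 := by nlinarith

theorem a3 {k L : ℝ} (h : 2 * (k + 1) ≤ L) (h9 : 9 ≤ L) : 2 * (k + 1) ≤ L ^ 2 := by nlinarith

theorem a4 {C L y K : ℝ} (hC : 0 < C) (h : L ≤ y * (8 * K)) : C * L ≤ 8 * K * C * y := by
  have := mul_le_mul_of_nonneg_left h hC.le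
  linarith

theorem a5 {a b : ℝ} (ha : 1 ≤ a) (hb : 2 ≤ b) : 2 ≤ a * b := by nlinarith

theorem a6 {e L b : ℝ} (hL : 0 < L) (he : e ≤ 1) (hb : 1 ≤ b) : 1 * (e * L) ≤ b * L := by
  have h1 := mul_le_mul_of_nonneg_right he hL.le
  have h2 := mul_le_mul_of_nonneg_right hb hL.le
  linarith

theorem mem_P1 {N B : ℕ} {ε : ℝ} {l : ℕ} : l ∈ P1 N B ε ↔
    l ∈ Icc 1 N ∧ l.Prime ∧ Real.log N ^ B ≤ (l : ℝ) ∧ tt N l < ε := by
  unfold P1; rw [mem_filter]

open Classical in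
theorem mem_PK {N B : ℕ} {ε : ℝ} {S : Finset (ℤ × ℕ)} {l : ℕ} : l ∈ PK N B ε S ↔
    l ∈ P1 N B ε ∧ gp S l := by
  unfold PK; rw [mem_filter]

/-- the sieving conditions -/
def Qk (P : Finset ℕ) (S : Finset (ℤ × ℕ)) (m : ℕ) (c : ℤ) (l n : ℕ) : Prop :=
  ¬ l ∣ m ∧ ((l : ℤ) ∣ c + m * n ∨ (l ∈ P ∧ (l : ℤ) ∣ Fp S (c + m * n)))

theorem Fp_per (S : Finset (ℤ × ℕ)) (c : ℤ) (m p n : ℕ) :
    (p : ℤ) ∣ Fp S (c + m * n) ↔ (p : ℤ) ∣ Fp S (c + m * ((n % p : ℕ) : ℤ)) := by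
  rw [← ZMod.intCast_zmod_eq_zero_iff_dvd, ← ZMod.intCast_zmod_eq_zero_iff_dvd]
  have h : ((n : ℕ) : ZMod p) = ((n % p : ℕ) : ZMod p) := by simp
  unfold Fp lf
  push_cast
  rw [h]

theorem dvd_Fp {l : ℕ} (hl : l.Prime) (S : Finset (ℤ × ℕ)) (x : ℤ) :
    (l : ℤ) ∣ Fp S x ↔ ∃ L ∈ S, (l : ℤ) ∣ lf L x := by
  unfold Fp
  exact (Nat.prime_iff_prime_int.mp hl).dvd_finsetProd_iff _

theorem lf_lin (L : ℤ × ℕ) (c : ℤ) (m n : ℕ) :
    lf L (c + m * n) = (L.1 + L.2 * c) + ((L.2 * m : ℕ) : ℤ) * n := by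
  unfold lf; push_cast; ring

theorem not_dvd_mul {l b m : ℕ} (hl : l.Prime) (hb : ¬ l ∣ b) (hm : ¬ l ∣ m) : ¬ l ∣ b * m := by
  intro h
  rcases hl.dvd_mul.mp h with h | h
  · exact hb h
  · exact hm h

theorem perB_Qk (P : Finset ℕ) (S : Finset (ℤ × ℕ)) (m : ℕ) (c : ℤ) (hg : ∀ l ∈ P, gp S l) :
    PerB (Qk P S m c) (S.card + 1) := by
  classical
  refine ⟨fun p n => ?_, fun l hl => ?_⟩
  · unfold Qk
    rw [dvd_per c m p n, Fp_per S c m p n]
  · by_cases hlm : l ∣ m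
    · have : nuB (Qk P S m c) l = 0 := by
        unfold nuB
        rw [Finset.card_eq_zero, Finset.filter_eq_empty_iff]
        intro n _ hn
        exact hn.1 hlm
      rw [this]; exact Nat.zero_le _
    · have h1 : ((range l).filter (fun n : ℕ => (l : ℤ) ∣ c + m * n)).card ≤ 1 :=
        card_one hl hlm c
      by_cases hP : l ∈ P
      · have hsub : (range l).filter (fun r => Qk P S m c l r) ⊆
            (S.biUnion fun L => (range l).filter (fun n : ℕ =>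
              (l : ℤ) ∣ (L.1 + L.2 * c) + ((L.2 * m : ℕ) : ℤ) * n)) ∪
            (range l).filter (fun n : ℕ => (l : ℤ) ∣ c + m * n) := by
          intro n hn
          rw [mem_filter] at hn
          rw [mem_union, mem_filter, mem_biUnion]
          rcases hn.2.2 with h | h
          · exact Or.inr ⟨hn.1, h⟩
          · obtain ⟨L, hL, hL2⟩ := (dvd_Fp hl S _).mp h.2
            refine Or.inl ⟨L, hL, mem_filter.mpr ⟨hn.1, ?_⟩⟩
            rw [← lf_lin]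
            exact hL2
        unfold nuB
        calc _ ≤ _ := by
              refine le_trans (le_of_eq ?_) (card_le_card hsub)
              congr
          _ ≤ _ := card_union_le _ _
          _ ≤ S.card + 1 := by
              refine add_le_add ?_ h1
              refine card_biUnion_le.trans ?_
              calc _ ≤ ∑ L ∈ S, 1 := sum_le_sum fun L hL =>
                    card_one hl (not_dvd_mul hl ((hg l hP).1 L hL) hlm) _
                _ = S.card := by simp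
      · have hsub : (range l).filter (fun r => Qk P S m c l r) ⊆
            (range l).filter (fun n : ℕ => (l : ℤ) ∣ c + m * n) := by
          intro n hn
          rw [mem_filter] at hn
          rw [mem_filter]
          rcases hn.2.2 with h | h
          · exact ⟨hn.1, h⟩
          · exact absurd h.1 hP
        unfold nuB
        calc _ ≤ _ := by
              refine le_trans (le_of_eq ?_) (card_le_card hsub)
              congr
          _ ≤ 1 := h1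
          _ ≤ S.card + 1 := Nat.le_add_left 1 _

theorem nu_ge_one {P : Finset ℕ} {S : Finset (ℤ × ℕ)} {m : ℕ} {c : ℤ} {l : ℕ} (hl : l.Prime)
    (hlm : ¬ l ∣ m) : 1 ≤ nuB (Qk P S m c) l := by
  classical
  obtain ⟨n, hn, h⟩ := sol hl hlm c
  unfold nuB
  rw [Nat.one_le_iff_ne_zero, Finset.card_ne_zero]
  exact ⟨n, mem_filter.mpr ⟨hn, hlm, Or.inl h⟩⟩

theorem roots {P : Finset ℕ} {S : Finset (ℤ × ℕ)} {m : ℕ} {c : ℤ} {l : ℕ} (hl : l.Prime)
    (hlm : ¬ l ∣ m) (hP : l ∈ P) (hg : gp S l) : ∃ f : ℤ × ℕ → ℕ, Set.InjOn f S ∧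
      ∀ L ∈ S, f L ∈ range l ∧ (l : ℤ) ∣ lf L (c + m * (f L : ℕ)) ∧ Qk P S m c l (f L) := by
  have h1 : ∀ L : ℤ × ℕ, ∃ n : ℕ, L ∈ S → n ∈ range l ∧ (l : ℤ) ∣ lf L (c + m * n) := by
    intro L
    by_cases hL : L ∈ S
    · obtain ⟨n, hn, h⟩ := sol hl (not_dvd_mul hl (hg.1 L hL) hlm) (L.1 + L.2 * c)
      refine ⟨n, fun _ => ⟨hn, ?_⟩⟩
      rw [lf_lin]
      exact h
    · exact ⟨0, fun h => absurd h hL⟩
  choose f hf using h1
  refine ⟨f, ?_, fun L hL => ⟨(hf L hL).1, (hf L hL).2, hlm, Or.inr ⟨hP, ?_⟩⟩⟩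
  · intro L hL L' hL' h
    by_contra hne
    have e1 := (hf L hL).2
    have e2 := (hf L' hL').2
    rw [← h] at e2
    apply hg.2 L hL L' hL' hne
    have h3 : L.1 * L'.2 - L'.1 * L.2 = lf L (c + m * (f L : ℕ)) * L'.2 -
        lf L' (c + m * (f L : ℕ)) * L.2 := by
      unfold lf; ring
    rw [h3]
    exact dvd_sub (Dvd.dvd.mul_right e1 _) (Dvd.dvd.mul_right e2 _)
  · exact (dvd_Fp hl S _).mpr ⟨L, hL, (hf L hL).2⟩

theorem nu_ge_k {P : Finset ℕ} {S : Finset (ℤ × ℕ)} {m : ℕ} {c : ℤ} {l : ℕ} (hl : l.Prime)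
    (hlm : ¬ l ∣ m) (hP : l ∈ P) (hg : gp S l) : S.card ≤ nuB (Qk P S m c) l := by
  classical
  obtain ⟨f, hf1, hf2⟩ := roots (c := c) hl hlm hP hg
  unfold nuB
  rw [← card_image_of_injOn hf1]
  refine card_le_card ?_
  intro x hx
  obtain ⟨L, hL, rfl⟩ := mem_image.mp hx
  exact mem_filter.mpr ⟨(hf2 L hL).1, (hf2 L hL).2.2⟩

theorem nu_ge_k1 {P : Finset ℕ} {S : Finset (ℤ × ℕ)} {m : ℕ} {c : ℤ} {l : ℕ} (hl : l.Prime)
    (hlm : ¬ l ∣ m) (hP : l ∈ P) (hg : gp S l) (ha : ∀ L ∈ S, ¬ (l : ℤ) ∣ L.1) :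
    S.card + 1 ≤ nuB (Qk P S m c) l := by
  classical
  obtain ⟨f, hf1, hf2⟩ := roots (c := c) hl hlm hP hg
  obtain ⟨n, hn, h⟩ := sol hl hlm c
  have hnot : n ∉ S.image f := by
    intro hx
    obtain ⟨L, hL, rfl⟩ := mem_image.mp hx
    apply ha L hL
    have e1 := (hf2 L hL).2.1
    have h3 : L.1 = lf L (c + m * (f L : ℕ)) - (c + m * (f L : ℕ)) * L.2 := by
      unfold lf; ring
    rw [h3]
    exact dvd_sub e1 (Dvd.dvd.mul_right h _)
  unfold nuB
  rw [← card_image_of_injOn hf1, ← card_insert_of_notMem hnot]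
  refine card_le_card ?_
  intro x hx
  rw [mem_insert] at hx
  rcases hx with rfl | hx
  · exact mem_filter.mpr ⟨hn, hlm, Or.inl h⟩
  · obtain ⟨L, hL, rfl⟩ := mem_image.mp hx
    exact mem_filter.mpr ⟨(hf2 L hL).1, (hf2 L hL).2.2⟩

open Classical in
theorem point {k : ℕ} {P : Finset ℕ} {S : Finset (ℤ × ℕ)} {m : ℕ} {c : ℤ} {l : ℕ} (hl : l.Prime)
    (hS : S.card = k) (hg : l ∈ P → gp S l) (hk : l ∈ P → 2 * (k : ℝ) ≤ l) :
    1 - (nuB (Qk P S m c) l : ℝ) / l ≤ (1 - 1 / (l : ℝ)) *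
      ((if l ∣ m then (1 - 1 / (l : ℝ))⁻¹ else 1) * ((if l ∈ P then (1 - (k : ℝ) / (l : ℝ)) else 1) *
        (if l ∈ P ∧ (l : ℤ) ∣ (∏ L ∈ S, L.1) * m then
          ((1 - (k : ℝ) / (l : ℝ)) * (1 - 1 / (l : ℝ)))⁻¹ else 1))) := by
  have hl2 : (2 : ℝ) ≤ l := by exact_mod_cast hl.two_le
  have hl0 : (0 : ℝ) < l := by linarith
  have hx : 1 / (l : ℝ) ≤ 1 / 2 := one_div_le_one_div_of_le (by norm_num) hl2
  have hx0 : 0 < 1 / (l : ℝ) := by positivity
  have hkx : (k : ℝ) / l = k * (1 / (l : ℝ)) := by ring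
  have hnu : (nuB (Qk P S m c) l : ℝ) / l = nuB (Qk P S m c) l * (1 / (l : ℝ)) := by ring
  rw [hnu, hkx]
  have hkP : l ∈ P → (k : ℝ) * (1 / (l : ℝ)) ≤ 1 / 2 := by
    intro h
    have := hk h
    rw [mul_one_div, div_le_div_iff₀ hl0 (by norm_num)]
    linarith
  set x := 1 / (l : ℝ) with hxd
  have h1x : 0 < 1 - x := by linarith
  have hk0 : (0 : ℝ) ≤ k := Nat.cast_nonneg k
  by_cases hlm : l ∣ m
  · have h0 : (0 : ℝ) ≤ nuB (Qk P S m c) l * x := by positivity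
    have hlam : (l : ℤ) ∣ (∏ L ∈ S, L.1) * m := Dvd.dvd.mul_left (Int.natCast_dvd_natCast.mpr hlm) _
    rw [if_pos hlm]
    by_cases hP : l ∈ P
    · have hkx' := hkP hP
      have h1k : 0 < 1 - k * x := by linarith
      rw [if_pos hP, if_pos ⟨hP, hlam⟩]
      have e : (1 - x) * ((1 - x)⁻¹ * ((1 - k * x) * ((1 - k * x) * (1 - x))⁻¹)) = (1 - x)⁻¹ :=
        alg1 h1x.ne' h1k.ne'
      rw [e]
      have : 1 ≤ (1 - x)⁻¹ := by
        rw [one_le_inv₀ h1x]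
        linarith
      linarith
    · rw [if_neg hP, if_neg (fun h => hP h.1), mul_one, mul_one, mul_inv_cancel₀ h1x.ne']
      linarith
  · rw [if_neg hlm, one_mul]
    have h1 : (1 : ℝ) ≤ nuB (Qk P S m c) l := by exact_mod_cast nu_ge_one hl hlm
    by_cases hP : l ∈ P
    · have hkx' := hkP hP
      have h1k : 0 < 1 - k * x := by linarith
      rw [if_pos hP]
      by_cases ha : ∃ L ∈ S, (l : ℤ) ∣ L.1
      · have hlam : (l : ℤ) ∣ (∏ L ∈ S, L.1) * m := by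
          obtain ⟨L, hL, hd⟩ := ha
          exact Dvd.dvd.mul_right (hd.trans (dvd_prod_of_mem (fun L => L.1) hL)) _
        rw [if_pos ⟨hP, hlam⟩]
        have e : (1 - x) * ((1 - k * x) * ((1 - k * x) * (1 - x))⁻¹) = 1 :=
          alg2 h1x.ne' h1k.ne'
        rw [e]
        nlinarith
      · have hlam : ¬ (l : ℤ) ∣ (∏ L ∈ S, L.1) * m := by
          intro h
          rcases (Nat.prime_iff_prime_int.mp hl).dvd_or_dvd h with h | h
          · exact ha (((Nat.prime_iff_prime_int.mp hl).dvd_finsetProd_iff _).mp h)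
          · exact hlm (Int.natCast_dvd_natCast.mp h)
        rw [if_neg (fun h => hlam h.2), mul_one]
        have h2 : (k : ℝ) + 1 ≤ nuB (Qk P S m c) l := by
          have := nu_ge_k1 (c := c) hl hlm hP (hg hP) (by
            intro L hL hd
            exact ha ⟨L, hL, hd⟩)
          rw [hS] at this
          exact_mod_cast this
        have h3 : ((k : ℝ) + 1) * x ≤ nuB (Qk P S m c) l * x :=
          mul_le_mul_of_nonneg_right h2 hx0.le
        have h4 : 0 ≤ (k : ℝ) * x * x := by positivity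
        nlinarith
    · rw [if_neg hP, if_neg (fun h => hP h.1)]
      nlinarith

open Classical in
theorem prod_bound {k : ℕ} (P : Finset ℕ) (S : Finset (ℤ × ℕ)) {m : ℕ} (hm : 1 ≤ m) (c : ℤ)
    (Y : ℕ) (hS : S.card = k) (hg : ∀ l ∈ P, gp S l) (hk : ∀ l ∈ P, 2 * (k : ℝ) ≤ l) :
    ∏ l ∈ pz Y, (1 - (nuB (Qk P S m c) l : ℝ) / l) ≤
      Vz Y * (((m : ℝ) / Nat.totient m) *
        ((∏ l ∈ (pz Y).filter (fun l => l ∈ P), (1 - (k : ℝ) / (l : ℝ))) *
        ∏ l ∈ (pz Y).filter (fun l => l ∈ P ∧ (l : ℤ) ∣ (∏ L ∈ S, L.1) * m),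
          ((1 - (k : ℝ) / (l : ℝ)) * (1 - 1 / (l : ℝ)))⁻¹)) := by
  have hprime : ∀ l ∈ pz Y, l.Prime := fun l hl => (mem_pz.1 hl).2
  have hpos : ∀ l : ℕ, l.Prime → 0 < 1 - 1 / (l : ℝ) := by
    intro l hl
    have hl2 : (2 : ℝ) ≤ l := by exact_mod_cast hl.two_le
    have hx : 1 / (l : ℝ) ≤ 1 / 2 := one_div_le_one_div_of_le (by norm_num) hl2
    linarith
  have hposk : ∀ l : ℕ, l.Prime → l ∈ P → 0 < 1 - (k : ℝ) / (l : ℝ) := by
    intro l hl hP
    have hl0 : (0 : ℝ) < l := by exact_mod_cast hl.pos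
    have := hk l hP
    have : (k : ℝ) / l ≤ 1 / 2 := by
      rw [div_le_div_iff₀ hl0 (by norm_num)]
      linarith
    linarith
  have hge : ∀ l : ℕ, l.Prime → 1 ≤ (1 - 1 / (l : ℝ))⁻¹ := by
    intro l hl
    rw [one_le_inv₀ (hpos l hl)]
    have : 0 ≤ 1 / (l : ℝ) := by positivity
    linarith
  have h1 := Finset.prod_le_prod (s := pz Y) (f := fun l => 1 - (nuB (Qk P S m c) l : ℝ) / l)
    (g := fun l => (1 - 1 / (l : ℝ)) *
      ((if l ∣ m then (1 - 1 / (l : ℝ))⁻¹ else 1) * ((if l ∈ P then (1 - (k : ℝ) / (l : ℝ)) else 1) *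
        (if l ∈ P ∧ (l : ℤ) ∣ (∏ L ∈ S, L.1) * m then
          ((1 - (k : ℝ) / (l : ℝ)) * (1 - 1 / (l : ℝ)))⁻¹ else 1)))) (fun l hl => by
      have hl0 : (0 : ℝ) < l := by exact_mod_cast (hprime l hl).pos
      have : (nuB (Qk P S m c) l : ℝ) / l ≤ 1 := by
        rw [div_le_one hl0]; exact_mod_cast nuB_le _ l
      linarith) (fun l hl => point (hprime l hl) hS (hg l) (hk l))
  refine h1.trans ?_
  rw [Finset.prod_mul_distrib, Finset.prod_mul_distrib, Finset.prod_mul_distrib,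
    ← Finset.prod_filter, ← Finset.prod_filter, ← Finset.prod_filter]
  have hV : 0 ≤ Vz Y := (Vz_pos Y).le
  refine mul_le_mul_of_nonneg_left ?_ hV
  refine mul_le_mul_of_nonneg_right ?_ (mul_nonneg (prod_nonneg fun l hl => ?_)
    (prod_nonneg fun l hl => ?_))
  · have hm0 : (0 : ℝ) < m := by exact_mod_cast hm
    have htot : (Nat.totient m : ℝ) = m * ∏ p ∈ m.primeFactors, (1 - 1 / (p : ℝ)) := by
      have := Nat.totient_eq_mul_prod_factors m
      have h2 : ((Nat.totient m : ℚ) : ℝ) = ((m * ∏ p ∈ m.primeFactors, (1 - (p : ℚ)⁻¹) : ℚ) : ℝ) := by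
        rw [this]
      push_cast at h2
      simpa only [one_div] using h2
    have hpp : 0 < ∏ p ∈ m.primeFactors, (1 - 1 / (p : ℝ)) :=
      prod_pos fun p hp => hpos p (Nat.prime_of_mem_primeFactors hp)
    have h3 : (m : ℝ) / Nat.totient m = ∏ p ∈ m.primeFactors, (1 - 1 / (p : ℝ))⁻¹ := by
      rw [htot, Finset.prod_inv_distrib]
      field_simp
    rw [h3]
    refine Finset.prod_le_prod_of_subset_of_one_le ?_ ?_ ?_
    · intro l hl
      rw [mem_filter] at hl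
      exact Nat.mem_primeFactors.mpr ⟨hprime l hl.1, hl.2, by omega⟩
    · intro l hl
      exact le_trans zero_le_one (hge l (hprime l (mem_filter.mp hl).1))
    · intro l hl _
      exact hge l (Nat.prime_of_mem_primeFactors hl)
  · rw [mem_filter] at hl
    exact (hposk l (hprime l hl.1) hl.2).le
  · rw [mem_filter] at hl
    exact inv_nonneg.mpr (mul_nonneg (hposk l (hprime l hl.1) hl.2.1).le (hpos l (hprime l hl.1)).le)

open Classical in
theorem k_bound {k : ℕ} (P : Finset ℕ) {m : ℕ} (hm : 1 ≤ m) {A : ℤ} (hA : A ≠ 0) {N E : ℕ}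
    (hL : 8 * ((E : ℝ) + 1) * (k + 1) ≤ Real.log N) (hL1 : 2 * ((k : ℝ) + 1) ≤ Real.log N ^ 2)
    (hP : ∀ l ∈ P, Real.log N ^ 2 ≤ (l : ℝ))
    (hAN : |(A : ℝ)| ≤ (N : ℝ) ^ E) (hmN : (m : ℝ) ≤ N) (Y : ℕ) :
    ∏ l ∈ (pz Y).filter (fun l => l ∈ P ∧ (l : ℤ) ∣ A * m),
      ((1 - (k : ℝ) / (l : ℝ)) * (1 - 1 / (l : ℝ)))⁻¹ ≤ 2 := by
  set T := (pz Y).filter (fun l => l ∈ P ∧ (l : ℤ) ∣ A * m) with hTd
  have hT : ∀ l ∈ T, l.Prime ∧ Real.log N ^ 2 ≤ (l : ℝ) ∧ (l : ℤ) ∣ A * m := by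
    intro l hl
    rw [hTd, mem_filter] at hl
    exact ⟨(mem_pz.1 hl.1).2, hP l hl.2.1, hl.2.2⟩
  set L := Real.log N with hLd
  have hE0 : (0 : ℝ) ≤ E := Nat.cast_nonneg E
  have hk0 : (0 : ℝ) ≤ k := Nat.cast_nonneg k
  have hL0 : 0 < L := lt_of_lt_of_le (by positivity) hL
  have hN0 : (0 : ℝ) < N := by
    by_contra h
    have h2 : (N : ℝ) = 0 := le_antisymm (not_lt.mp h) (Nat.cast_nonneg N)
    rw [hLd, h2, Real.log_zero] at hL0
    linarith
  have hM0 : (A * m).natAbs ≠ 0 := by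
    rw [Ne, Int.natAbs_eq_zero]
    exact mul_ne_zero hA (by exact_mod_cast (by omega : m ≠ 0))
  have h1 := few_primes T (fun l hl => (hT l hl).1) hM0 fun l hl =>
    Int.natCast_dvd.mp (hT l hl).2.2
  have h2 : (((A * m).natAbs : ℕ) : ℝ) ≤ (N : ℝ) ^ (E + 1) := by
    rw [Nat.cast_natAbs, Int.cast_abs, Int.cast_mul, abs_mul, Int.cast_natCast, Nat.abs_cast, pow_succ]
    exact mul_le_mul hAN hmN (Nat.cast_nonneg m) (by positivity)
  have h3 : (2 : ℝ) ^ T.card ≤ (N : ℝ) ^ (E + 1) := by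
    refine le_trans ?_ h2
    exact_mod_cast h1
  have h4 := Real.log_le_log (by positivity) h3
  rw [Real.log_pow, Real.log_pow] at h4
  have hlog2 := Real.log_two_gt_d9
  have hcard : (T.card : ℝ) ≤ 2 * (E + 1) * L := by
    have hc0 : (0 : ℝ) ≤ T.card := Nat.cast_nonneg _
    push_cast at h4
    have h5 : (T.card : ℝ) * (1 / 2) ≤ (E + 1) * L := by
      refine le_trans ?_ h4
      exact mul_le_mul_of_nonneg_left (by linarith) hc0
    linarith
  have h5 : ∏ l ∈ T, ((1 - (k : ℝ) / (l : ℝ)) * (1 - 1 / (l : ℝ)))⁻¹ ≤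
      ∏ l ∈ T, Real.exp (2 * (k + 1) / L ^ 2) := by
    have hkey : ∀ l ∈ T, 0 < 1 - (k : ℝ) / (l : ℝ) ∧ 0 < 1 - 1 / (l : ℝ) ∧
        (k : ℝ) / l ≤ 1 / 2 ∧ 1 / (l : ℝ) ≤ 1 / 2 := by
      intro l hl
      have hl2 : (2 : ℝ) ≤ l := by exact_mod_cast (hT l hl).1.two_le
      have hl0 : (0 : ℝ) < l := by linarith
      have hx : 1 / (l : ℝ) ≤ 1 / 2 := one_div_le_one_div_of_le (by norm_num) hl2
      have hkl : (k : ℝ) / l ≤ 1 / 2 := by
        rw [div_le_div_iff₀ hl0 (by norm_num)]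
        have := (hT l hl).2.1
        linarith
      exact ⟨by linarith, by linarith, hkl, hx⟩
    refine Finset.prod_le_prod (fun l hl => ?_) (fun l hl => ?_)
    · obtain ⟨h6, h7, -, -⟩ := hkey l hl
      exact inv_nonneg.mpr (mul_nonneg h6.le h7.le)
    · obtain ⟨h6, h7, h8, h9⟩ := hkey l hl
      have hl0 : (0 : ℝ) < l := by exact_mod_cast (hT l hl).1.pos
      have hL2 : 0 < L ^ 2 := by positivity
      have hxl : 1 / (l : ℝ) ≤ 1 / L ^ 2 := one_div_le_one_div_of_le hL2 (hT l hl).2.1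
      have hx0 : 0 < 1 / (l : ℝ) := by positivity
      have hkx : (k : ℝ) / l = k * (1 / (l : ℝ)) := by ring
      rw [hkx] at h6 h8 ⊢
      set x := 1 / (l : ℝ)
      have h10 : (1 - x)⁻¹ ≤ Real.exp (2 * x) := by
        have : (1 - x)⁻¹ ≤ 1 + 2 * x := by
          rw [inv_le_iff_one_le_mul₀ (by linarith)]
          nlinarith
        have h11 := Real.add_one_le_exp (2 * x)
        linarith
      have h12 : (1 - k * x)⁻¹ ≤ Real.exp (2 * (k * x)) := by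
        have : (1 - k * x)⁻¹ ≤ 1 + 2 * (k * x) := by
          rw [inv_le_iff_one_le_mul₀ (by linarith)]
          have h13 : 0 ≤ (k : ℝ) * x := by positivity
          nlinarith
        have h11 := Real.add_one_le_exp (2 * (k * x))
        linarith
      rw [mul_inv]
      calc (1 - k * x)⁻¹ * (1 - x)⁻¹ ≤ Real.exp (2 * (k * x)) * Real.exp (2 * x) :=
            mul_le_mul h12 h10 (inv_nonneg.mpr h7.le) (Real.exp_pos _).le
        _ = Real.exp (2 * (k + 1) * x) := by rw [← Real.exp_add]; congr 1; ring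
        _ ≤ Real.exp (2 * (k + 1) / L ^ 2) := by
            apply Real.exp_le_exp.mpr
            have : 2 * ((k : ℝ) + 1) / L ^ 2 = 2 * (k + 1) * (1 / L ^ 2) := by ring
            rw [this]
            exact mul_le_mul_of_nonneg_left hxl (by positivity)
  refine h5.trans ?_
  rw [Finset.prod_const, ← Real.exp_nat_mul, ← Real.le_log_iff_exp_le (by norm_num)]
  calc (T.card : ℝ) * (2 * (k + 1) / L ^ 2) ≤ (2 * (E + 1) * L) * (2 * (k + 1) / L ^ 2) :=
        mul_le_mul_of_nonneg_right hcard (by positivity)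
    _ = 4 * (E + 1) * (k + 1) / L := by field_simp; ring
    _ ≤ 1 / 2 := by
        rw [div_le_div_iff₀ hL0 (by norm_num)]
        linarith
    _ ≤ Real.log 2 := by linarith

open Classical in
theorem count_bound (P : Finset ℕ) (S : Finset (ℤ × ℕ)) (L : ℤ × ℕ) {m : ℕ} (hm : 1 ≤ m)
    (hb : Nat.Coprime L.2 m) (N Y : ℕ) : ∃ c : ℤ,
    ((Icc 1 N).filter (fun p : ℕ => p.Prime ∧ (m : ℤ) ∣ lf L p ∧ xx P (Fp S p) = 1)).card ≤
      Y + ((Icc 1 (N / m + 1)).filter (fun n : ℕ => ∀ l ∈ pz Y, ¬ Qk P S m c l n)).card := by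
  set T := (Icc 1 N).filter (fun p : ℕ => p.Prime ∧ (m : ℤ) ∣ lf L p ∧ xx P (Fp S p) = 1) with hT
  rcases T.eq_empty_or_nonempty with he | ⟨p₀, hp₀⟩
  · exact ⟨0, by rw [he]; simp⟩
  have hmod : ∀ p ∈ T, p % m = p₀ % m := by
    intro p hp
    have h2 := (mem_filter.mp hp).2.2.1
    have h3 := (mem_filter.mp hp₀).2.2.1
    have h4 : (m : ℤ) ∣ L.2 * ((p : ℤ) - p₀) := by
      have := dvd_sub h2 h3
      have e : lf L p - lf L p₀ = L.2 * ((p : ℤ) - p₀) := by unfold lf; ring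
      rwa [e] at this
    have h5 : (m : ℤ) ∣ (p : ℤ) - p₀ := by
      have hc : IsCoprime (m : ℤ) (L.2 : ℤ) := Nat.isCoprime_iff_coprime.mpr hb.symm
      exact hc.dvd_of_dvd_mul_left h4
    have h6 : (p : ℤ) % m = (p₀ : ℤ) % m := Int.emod_eq_emod_iff_emod_sub_eq_zero.mpr
      (Int.emod_eq_zero_of_dvd h5)
    exact_mod_cast h6
  refine ⟨((p₀ % m : ℕ) : ℤ) - m, ?_⟩
  have h1 : T ⊆ Icc 1 Y ∪ T.filter (fun p => Y < p) := by
    intro p hp
    rw [mem_union, mem_filter]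
    have hp1 := (mem_Icc.mp (mem_filter.mp hp).1).1
    rcases Nat.lt_or_ge Y p with h | h
    · exact Or.inr ⟨hp, h⟩
    · exact Or.inl (mem_Icc.mpr ⟨hp1, h⟩)
  refine (card_le_card h1).trans ((card_union_le _ _).trans ?_)
  refine add_le_add (by rw [Nat.card_Icc, Nat.add_sub_cancel]) ?_
  refine card_le_card_of_injOn (fun p => p / m + 1) ?_ ?_
  · intro p hp
    rw [mem_coe, mem_filter] at hp
    obtain ⟨hpS, hpY⟩ := hp
    have hpm := hmod p hpS
    have hp' := mem_filter.mp hpS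
    rw [mem_Icc] at hp'
    rw [mem_coe, mem_filter, mem_Icc]
    refine ⟨⟨Nat.le_add_left 1 _, Nat.add_le_add_right (Nat.div_le_div_right hp'.1.2) 1⟩, ?_⟩
    intro l hl hQ
    have hlp := mem_pz.1 hl
    have hval : ((p₀ % m : ℕ) : ℤ) - m + m * ((p / m + 1 : ℕ) : ℤ) = p := by
      rw [← hpm]
      have := Nat.div_add_mod p m
      have h4 : (p : ℤ) = m * ((p / m : ℕ) : ℤ) + ((p % m : ℕ) : ℤ) := by exact_mod_cast this.symm
      conv_rhs => rw [h4]
      push_cast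
      ring
    obtain ⟨-, h5 | ⟨hlP, h5⟩⟩ := hQ
    · rw [hval] at h5
      have h6 : l ∣ p := Int.natCast_dvd_natCast.mp h5
      have h7 := (Nat.prime_dvd_prime_iff_eq hlp.2 hp'.2.1).mp h6
      omega
    · rw [hval] at h5
      have h9 := hp'.2.2.2
      unfold xx at h9
      by_cases h10 : ∀ q ∈ P, ¬ (q : ℤ) ∣ Fp S p
      · exact h10 l hlP h5
      · rw [if_neg h10] at h9
        norm_num at h9
  · intro p hp p' hp' h
    rw [mem_coe, mem_filter] at hp hp'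
    have h2 := hmod p hp.1
    rw [← hmod p' hp'.1] at h2
    have h4 : p / m = p' / m := by
      simp only at h
      omega
    rw [← Nat.div_add_mod p m, ← Nat.div_add_mod p' m, h2, h4]

open Classical in
theorem UBSK (hVLBK : St_VLBK) (_hRSK : St_RSK) : St_UBSK := by
  intro k M B hk hB ε₁ hε₁ hε₁1
  obtain ⟨K, x0, hK, hfund⟩ := sys_fund (k + 1) (by omega) 1 one_pos
  obtain ⟨C₁, hC₁, hV⟩ := Vz_up
  obtain ⟨c₂, hc₂, hvlb⟩ := hVLBK k hk
  have hK0 : (0 : ℝ) < K := by exact_mod_cast hK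
  have hK1 : (1 : ℝ) ≤ K := by exact_mod_cast hK
  set ε' := min ε₁ (1 / (4 * K : ℝ)) with hε'
  have hε'0 : 0 < ε' := lt_min hε₁ (by positivity)
  have hε'1 : ε' ≤ 1 := (min_le_left _ _).trans hε₁1
  obtain ⟨N1, h1⟩ := hvlb M B hB ε₁ hε₁ hε₁1
  obtain ⟨N2, h2⟩ := hvlb M B hB ε' hε'0 hε'1
  have htend : Filter.Tendsto (fun N : ℕ => (N : ℝ)) Filter.atTop Filter.atTop :=
    tendsto_natCast_atTop_atTop
  have hlogt := Real.tendsto_log_atTop.comp htend
  have e1 : ∀ᶠ N : ℕ in Filter.atTop, 9 ≤ Real.log N := hlogt.eventually_ge_atTop 9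
  have e1' : ∀ᶠ N : ℕ in Filter.atTop, 8 * (((k * M : ℕ) : ℝ) + 1) * (k + 1) ≤ Real.log N :=
    hlogt.eventually_ge_atTop _
  have e1'' : ∀ᶠ N : ℕ in Filter.atTop, 2 * ((k : ℝ) + 1) ≤ Real.log N :=
    hlogt.eventually_ge_atTop _
  have e2 : ∀ᶠ N : ℕ in Filter.atTop, (x0 : ℝ) + 3 ≤ (N : ℝ) ^ (1 / (8 * K : ℝ)) :=
    ((tendsto_rpow_atTop (by positivity)).comp htend).eventually_ge_atTop _
  have e3 : ∀ᶠ N : ℕ in Filter.atTop, 2 / c₂ ≤ (N : ℝ) ^ (1 / 2 : ℝ) :=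
    ((tendsto_rpow_atTop (by norm_num)).comp htend).eventually_ge_atTop _
  have e4 : ∀ᶠ N : ℕ in Filter.atTop, Real.log N ^ (k + 1) ≤ (N : ℝ) ^ (1 / 10 : ℝ) := by
    have h := (isLittleO_log_rpow_rpow_atTop ((k + 1 : ℕ) : ℝ)
      (show (0 : ℝ) < 1 / 10 by norm_num)).comp_tendsto htend
    filter_upwards [h.eventuallyLE, e1] with N hN h9
    simp only [Function.comp_apply, Real.rpow_natCast, Real.norm_eq_abs] at hN
    rw [abs_of_nonneg (by positivity : (0 : ℝ) ≤ (N : ℝ) ^ (1 / 10 : ℝ)),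
      abs_of_nonneg (pow_nonneg (by linarith) _)] at hN
    exact hN
  obtain ⟨N3, h3⟩ := Filter.eventually_atTop.mp
    (e1.and (e1'.and (e1''.and (e2.and (e3.and e4)))))
  set C' : ℝ := 128 * K * C₁ * (ε₁ / ε') ^ k / c₂ ^ 2 with hC'
  have hC'0 : 0 < C' := by positivity
  refine ⟨C' + 1, max N1 (max N2 N3), by positivity, ?_⟩
  intro N hN S hS L₀ hL₀ m hm hmN hgcd hcop
  have hN1 : N1 ≤ N := (le_max_left _ _).trans hN
  have hN2 : N2 ≤ N := ((le_max_left _ _).trans (le_max_right _ _)).trans hN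
  have hN3 : N3 ≤ N := ((le_max_right _ _).trans (le_max_right _ _)).trans hN
  obtain ⟨hL9, hLk, hLk2, hx0, hc, hlogk⟩ := h3 N hN3
  obtain ⟨hVlow, -, -⟩ := h1 N hN1
  obtain ⟨-, hVup, hVPK⟩ := h2 N hN2
  obtain ⟨-, hVPK2⟩ := hVPK S hS.sys
  set L := Real.log N with hLd
  have hL0 : 0 < L := by linarith
  have hN0 : (0 : ℝ) < N := by
    by_contra h
    have h2 : (N : ℝ) = 0 := le_antisymm (not_lt.mp h) (Nat.cast_nonneg N)
    rw [hLd, h2, Real.log_zero] at hL9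
    linarith
  have hN1' : (1 : ℝ) ≤ N := by exact_mod_cast (Nat.cast_pos.mp hN0 : 0 < N)
  have hm0 : (0 : ℝ) < m := by exact_mod_cast hm
  have hm1 : (1 : ℝ) ≤ m := by exact_mod_cast hm
  have hmN' : (m : ℝ) ≤ N := hmN.trans (by
    calc (N : ℝ) ^ (1 / 20 : ℝ) ≤ (N : ℝ) ^ (1 : ℝ) :=
          Real.rpow_le_rpow_of_exponent_le hN1' (by norm_num)
      _ = N := Real.rpow_one _)
  have hk0 : (0 : ℝ) ≤ k := Nat.cast_nonneg k
  -- the level
  set t := (N : ℝ) ^ (1 / (8 * K : ℝ)) with ht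
  have ht3 : 3 ≤ t := by
    have : (0 : ℝ) ≤ x0 := Nat.cast_nonneg _
    linarith
  have htsq : (N : ℝ) ^ (1 / (4 * K : ℝ)) = t ^ 2 := by
    rw [ht, ← Real.rpow_natCast, ← Real.rpow_mul hN0.le]
    congr 1
    push_cast
    field_simp
    norm_num
  set Y : ℕ := ⌊(N : ℝ) ^ (1 / (4 * K : ℝ))⌋₊ with hY
  have hYle : (Y : ℝ) ≤ (N : ℝ) ^ (1 / (4 * K : ℝ)) := Nat.floor_le (by positivity)
  have hYge : t ≤ Y := by
    have h4 : (N : ℝ) ^ (1 / (4 * K : ℝ)) < Y + 1 := Nat.lt_floor_add_one _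
    rw [htsq] at h4
    exact a1 h4 ht3
  have hYx0 : x0 ≤ Y := by
    have : (x0 : ℝ) ≤ Y := by linarith
    exact_mod_cast this
  have hY3 : 3 ≤ Y := by
    have : (3 : ℝ) ≤ Y := by linarith
    exact_mod_cast this
  have hYpow : (Y : ℝ) ^ K ≤ (N : ℝ) ^ (1 / 4 : ℝ) := by
    calc (Y : ℝ) ^ K ≤ ((N : ℝ) ^ (1 / (4 * K : ℝ))) ^ K := pow_le_pow_left₀ (Nat.cast_nonneg _) hYle K
      _ = (N : ℝ) ^ (1 / 4 : ℝ) := by
        rw [← Real.rpow_natCast, ← Real.rpow_mul hN0.le]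
        congr 1
        field_simp
  have hYN : (Y : ℝ) ≤ (N : ℝ) ^ (1 / 4 : ℝ) := by
    refine le_trans ?_ hYpow
    have hY1 : (1 : ℝ) ≤ Y := by linarith
    exact le_self_pow₀ hY1 (by omega)
  have hN14 : (1 : ℝ) ≤ (N : ℝ) ^ (1 / 4 : ℝ) := Real.one_le_rpow hN1' (by norm_num)
  have hsqrt : √((Y ^ K : ℕ) : ℝ) ≤ (N : ℝ) ^ (1 / 4 : ℝ) := by
    rw [Nat.cast_pow]
    refine (Real.sqrt_le_sqrt hYpow).trans ?_
    rw [Real.sqrt_le_left (by positivity)]
    exact a2 hN14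
  have hlogY : L / (8 * K) ≤ Real.log Y := by
    have h4 := Real.log_le_log (by linarith) hYge
    rw [ht, Real.log_rpow hN0] at h4
    calc L / (8 * K) = 1 / (8 * K) * Real.log N := by rw [← hLd]; ring
      _ ≤ _ := h4
  -- the sieve
  set P := PK N B ε₁ S with hP
  obtain ⟨c, hcount⟩ := count_bound P S L₀ hm hcop N Y
  set X := N / m + 1 with hX
  set Q := Qk P S m c with hQ
  have hPprop : ∀ l ∈ P, l.Prime ∧ Real.log N ^ B ≤ (l : ℝ) ∧ gp S l := by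
    intro l hl
    obtain ⟨h4, h5⟩ := mem_PK.1 hl
    obtain ⟨-, h6, h7, -⟩ := mem_P1.1 h4
    exact ⟨h6, h7, h5⟩
  have hPlow : ∀ l ∈ P, Real.log N ^ 2 ≤ (l : ℝ) := by
    intro l hl
    refine le_trans ?_ (hPprop l hl).2.1
    exact pow_le_pow_right₀ (by linarith) hB
  have hLsq : 2 * ((k : ℝ) + 1) ≤ L ^ 2 := a3 hLk2 hL9
  have hkP : ∀ l ∈ P, 2 * (k : ℝ) ≤ l := by
    intro l hl
    have := hPlow l hl
    rw [← hLd] at this
    linarith
  have hcard := hS.sys.card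
  have hper := perB_Qk P S m c (fun l hl => (hPprop l hl).2.2)
  rw [hcard] at hper
  have hf := hfund (Y ^ K) Y hYx0 le_rfl Q hper X
  set Pr := ∏ p ∈ pz Y, (1 - (nuB Q p : ℝ) / p) with hPr
  have hcount' : (((Icc 1 N).filter (fun p : ℕ => p.Prime ∧ (m : ℤ) ∣ lf L₀ p ∧
      xx P (Fp S p) = 1)).card : ℝ) ≤ Y + (((Icc 1 X).filter (fun n : ℕ => ∀ l ∈ pz Y,
        ¬ Q l n)).card : ℝ) := by
    exact_mod_cast hcount
  have hf' := (abs_le.mp hf).2
  have hPr0 : 0 ≤ Pr := prod_nonneg fun p hp => by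
    have hl0 : (0 : ℝ) < p := by exact_mod_cast (mem_pz.1 hp).2.pos
    have : (nuB Q p : ℝ) / p ≤ 1 := by
      rw [div_le_one hl0]; exact_mod_cast nuB_le _ p
    linarith
  -- the product
  have hpb := prod_bound P S hm c Y hcard (fun l hl => (hPprop l hl).2.2) hkP
  have hA0 : (∏ L ∈ S, L.1) ≠ 0 := prod_ne_zero_iff.mpr hS.nz
  have hAN : |((∏ L ∈ S, L.1 : ℤ) : ℝ)| ≤ (N : ℝ) ^ (k * M) := by
    rw [Int.cast_prod, abs_prod]
    calc ∏ L ∈ S, |(L.1 : ℝ)| ≤ ∏ L ∈ S, (N : ℝ) ^ M :=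
          prod_le_prod (fun L _ => abs_nonneg _) fun L hL => (hS.sys.fo L hL).a
      _ = (N : ℝ) ^ (k * M) := by rw [prod_const, hcard, ← pow_mul, mul_comm]
  have hkb := k_bound (k := k) P hm hA0 hLk hLsq hPlow hAN hmN' Y
  have hposk : ∀ l : ℕ, l ∈ P → 0 ≤ 1 - (k : ℝ) / (l : ℝ) ∧ 1 - (k : ℝ) / (l : ℝ) ≤ 1 := by
    intro l hl
    have hl0 : (0 : ℝ) < l := by exact_mod_cast (hPprop l hl).1.pos
    have h4 := hkP l hl
    have h5 : (k : ℝ) / l ≤ 1 / 2 := by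
      rw [div_le_div_iff₀ hl0 (by norm_num)]
      linarith
    have h6 : 0 ≤ (k : ℝ) / l := by positivity
    constructor <;> linarith
  have hposk1 : ∀ l : ℕ, l ∈ P1 N B ε₁ → 0 ≤ 1 - (k : ℝ) / (l : ℝ) := by
    intro l hl
    obtain ⟨-, h6, h7, -⟩ := mem_P1.1 hl
    have hl0 : (0 : ℝ) < l := by exact_mod_cast h6.pos
    have h4 : Real.log N ^ 2 ≤ (l : ℝ) :=
      le_trans (pow_le_pow_right₀ (by linarith) hB) h7
    rw [← hLd] at h4
    have h5 : (k : ℝ) / l ≤ 1 := by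
      rw [div_le_one hl0]
      linarith
    linarith
  have hpos : ∀ l : ℕ, l.Prime → 0 ≤ 1 - 1 / (l : ℝ) ∧ 1 - 1 / (l : ℝ) ≤ 1 := by
    intro l hl
    have hl2 : (2 : ℝ) ≤ l := by exact_mod_cast hl.two_le
    have hx : 1 / (l : ℝ) ≤ 1 / 2 := one_div_le_one_div_of_le (by norm_num) hl2
    have hx0 : 0 < 1 / (l : ℝ) := by positivity
    constructor <;> linarith
  have hsubP : PK N B ε' S ⊆ (pz Y).filter (fun l => l ∈ P) := by
    intro l hl
    obtain ⟨hl', hgl⟩ := mem_PK.1 hl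
    obtain ⟨hl1, hlp, hlB, hlt⟩ := mem_P1.1 hl'
    rw [mem_filter, mem_pz]
    refine ⟨⟨?_, hlp⟩, ?_⟩
    · have hl0 : (0 : ℝ) < l := by exact_mod_cast hlp.pos
      have h5 : Real.log l < 1 / (4 * K) * L := by
        have h6 : Real.log l / L < 1 / (4 * K) := lt_of_lt_of_le hlt (min_le_right _ _)
        rwa [div_lt_iff₀ hL0] at h6
      have h7 : (l : ℝ) ≤ (N : ℝ) ^ (1 / (4 * K : ℝ)) := by
        rw [← Real.log_le_log_iff hl0 (by positivity), Real.log_rpow hN0]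
        exact h5.le
      exact Nat.le_floor h7
    · exact mem_PK.2 ⟨mem_P1.2 ⟨hl1, hlp, hlB, lt_of_lt_of_le hlt (min_le_left _ _)⟩, hgl⟩
  have hh : ∏ l ∈ (pz Y).filter (fun l => l ∈ P), (1 - (k : ℝ) / (l : ℝ)) ≤
      Vk k (PK N B ε' S) := by
    unfold Vk
    refine Finset.prod_le_prod_of_subset_of_le_one hsubP (fun l hl => ?_) (fun l hl _ => ?_)
    · exact (hposk l (mem_filter.mp hl).2).1
    · exact (hposk l (mem_filter.mp hl).2).2
  set V := Vk k (P1 N B ε₁) with hVdef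
  have hVV0 : 0 ≤ V := prod_nonneg fun l hl => hposk1 l hl
  have hVVε : Vk k (PK N B ε' S) ≤ 2 * ((ε₁ / ε') ^ k / c₂ ^ 2) * V := by
    refine hVPK2.trans ?_
    have h8 : (B * Real.log L / (ε' * L)) ^ k = (ε₁ / ε') ^ k * (B * Real.log L / (ε₁ * L)) ^ k := by
      rw [← mul_pow]
      congr 1
      field_simp
    have h9 : (B * Real.log L / (ε₁ * L)) ^ k ≤ 1 / c₂ * V := by
      rw [div_mul_eq_mul_div, le_div_iff₀ hc₂, one_mul]
      linarith
    calc 2 * Vk k (P1 N B ε') ≤ 2 * (1 / c₂ * (B * Real.log L / (ε' * L)) ^ k) :=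
          mul_le_mul_of_nonneg_left hVup (by norm_num)
      _ = 2 * (1 / c₂ * ((ε₁ / ε') ^ k * (B * Real.log L / (ε₁ * L)) ^ k)) := by rw [h8]
      _ ≤ 2 * (1 / c₂ * ((ε₁ / ε') ^ k * (1 / c₂ * V))) := by
          refine mul_le_mul_of_nonneg_left ?_ (by norm_num)
          refine mul_le_mul_of_nonneg_left ?_ (by positivity)
          exact mul_le_mul_of_nonneg_left h9 (by positivity)
      _ = 2 * ((ε₁ / ε') ^ k / c₂ ^ 2) * V := by field_simp
  have hVz : Vz Y ≤ 8 * K * C₁ / L := by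
    refine (hV Y hY3).trans ?_
    rw [div_le_div_iff₀ (Real.log_pos (by exact_mod_cast (by omega : 1 < Y))) hL0]
    rw [div_le_iff₀ (by positivity)] at hlogY
    exact a4 hC₁ hlogY
  have hφ0 : (0 : ℝ) < Nat.totient m := by exact_mod_cast Nat.totient_pos.mpr hm
  have hprod : Pr ≤ (8 * K * C₁ / L) *
      ((m : ℝ) / Nat.totient m * ((2 * ((ε₁ / ε') ^ k / c₂ ^ 2) * V) * 2)) := by
    refine hpb.trans ?_
    refine mul_le_mul hVz ?_ ?_ (by positivity)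
    · refine mul_le_mul_of_nonneg_left ?_ (by positivity)
      refine mul_le_mul (hh.trans hVVε) hkb (prod_nonneg fun l hl => ?_) (by positivity)
      rw [mem_filter] at hl
      exact inv_nonneg.mpr (mul_nonneg (hposk l hl.2.1).1 (hpos l (mem_pz.1 hl.1).2).1)
    · refine mul_nonneg (by positivity) (mul_nonneg (prod_nonneg fun l hl => ?_)
        (prod_nonneg fun l hl => ?_))
      · exact (hposk l (mem_filter.mp hl).2).1
      · rw [mem_filter] at hl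
        exact inv_nonneg.mpr (mul_nonneg (hposk l hl.2.1).1 (hpos l (mem_pz.1 hl.1).2).1)
  have hXle : (X : ℝ) ≤ 2 * (N / m) := by
    have h10 : ((N / m : ℕ) : ℝ) ≤ (N : ℝ) / m := Nat.cast_div_le
    have h11 : (1 : ℝ) ≤ N / m := by rwa [one_le_div hm0]
    rw [hX]
    push_cast
    linarith
  set E := C' * (N / (Nat.totient m * L)) * V with hE
  have hmain : 2 * (X * Pr) ≤ E := by
    calc 2 * (X * Pr) ≤ 2 * ((2 * (N / m)) * ((8 * K * C₁ / L) * ((m : ℝ) / Nat.totient m *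
          ((2 * ((ε₁ / ε') ^ k / c₂ ^ 2) * V) * 2)))) := by
          refine mul_le_mul_of_nonneg_left ?_ (by norm_num)
          exact mul_le_mul hXle hprod hPr0 (by positivity)
      _ = E := by
          rw [hE, hC']
          field_simp
          ring
  -- the error
  have herr : 2 * (N : ℝ) ^ (1 / 4 : ℝ) ≤ N / (Nat.totient m * L) * V := by
    have hVc : c₂ / L ^ k ≤ V := by
      refine le_trans ?_ hVlow
      have h12 : 1 ≤ Real.log L := by
        rw [Real.le_log_iff_exp_le hL0]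
        have := Real.exp_one_lt_d9
        linarith
      have h13 : (1 : ℝ) ≤ B := by exact_mod_cast (by omega : 1 ≤ B)
      rw [div_eq_mul_one_div]
      refine mul_le_mul_of_nonneg_left ?_ hc₂.le
      rw [← one_div_pow]
      refine pow_le_pow_left₀ (by positivity) ?_ k
      rw [div_le_div_iff₀ hL0 (by positivity)]
      have h14 : (1 : ℝ) ≤ B * Real.log L := one_le_mul_of_one_le_of_one_le h13 h12
      exact a6 hL0 hε₁1 h14
    have hφm : (Nat.totient m : ℝ) ≤ (N : ℝ) ^ (1 / 20 : ℝ) := by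
      refine le_trans ?_ hmN
      exact_mod_cast Nat.totient_le m
    calc 2 * (N : ℝ) ^ (1 / 4 : ℝ) ≤ N / ((N : ℝ) ^ (1 / 20 : ℝ) * L) * (c₂ / L ^ k) := by
          rw [div_mul_div_comm, le_div_iff₀ (by positivity)]
          have h16 : (N : ℝ) = (N : ℝ) ^ (1 / 4 : ℝ) * (N : ℝ) ^ (1 / 20 : ℝ) *
              (N : ℝ) ^ (1 / 10 : ℝ) * (N : ℝ) ^ (1 / 10 : ℝ) * (N : ℝ) ^ (1 / 2 : ℝ) := by
            rw [← Real.rpow_add hN0, ← Real.rpow_add hN0, ← Real.rpow_add hN0, ← Real.rpow_add hN0]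
            norm_num
          have h18 : 2 ≤ c₂ * (N : ℝ) ^ (1 / 2 : ℝ) := by
            rw [div_le_iff₀ hc₂] at hc
            linarith
          have h19 : (1 : ℝ) ≤ (N : ℝ) ^ (1 / 10 : ℝ) := Real.one_le_rpow hN1' (by norm_num)
          have h20 : L * L ^ k ≤ (N : ℝ) ^ (1 / 10 : ℝ) := by
            rw [← pow_succ']
            exact hlogk
          have h21 : L * L ^ k * 2 ≤ (N : ℝ) ^ (1 / 10 : ℝ) * ((N : ℝ) ^ (1 / 10 : ℝ) *
              (c₂ * (N : ℝ) ^ (1 / 2 : ℝ))) := by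
            refine mul_le_mul h20 ?_ (by norm_num) (by positivity)
            exact a5 h19 h18
          calc 2 * (N : ℝ) ^ (1 / 4 : ℝ) * ((N : ℝ) ^ (1 / 20 : ℝ) * L * L ^ k)
              = (N : ℝ) ^ (1 / 4 : ℝ) * (N : ℝ) ^ (1 / 20 : ℝ) * (L * L ^ k * 2) := by ring
            _ ≤ (N : ℝ) ^ (1 / 4 : ℝ) * (N : ℝ) ^ (1 / 20 : ℝ) *
                ((N : ℝ) ^ (1 / 10 : ℝ) * ((N : ℝ) ^ (1 / 10 : ℝ) *
              (c₂ * (N : ℝ) ^ (1 / 2 : ℝ)))) := mul_le_mul_of_nonneg_left h21 (by positivity)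
            _ = (N : ℝ) * c₂ := by
                conv_rhs => rw [h16]
                ring
      _ ≤ N / (Nat.totient m * L) * V := by
          refine mul_le_mul ?_ hVc (by positivity) (by positivity)
          refine div_le_div_of_nonneg_left hN0.le (by positivity) ?_
          exact mul_le_mul_of_nonneg_right hφm hL0.le
  have hfin : (C' + 1) * (N / (Nat.totient m * Real.log N)) * V =
      E + N / (Nat.totient m * L) * V := by
    rw [hE, ← hLd]; ring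
  rw [hfin]
  linarith

end Pool.Agent.W946.KS
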